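import Mathlib

/-!
# One exceptional set for countably many exceptional sets of primes of density zero

If `S 0, S 1, …` are sets of primes of natural density zero (among the primes), there is one set `B`
of natural density zero which contains every `S n` up to finitely many elements.
-/

namespace Pool.Agent.H21.DZ

/-- the primes `p ≤ x` in `S` -/
def cnt (S : Set ℕ) (x : ℕ) : Set ℕ := {p : ℕ | p.Prime ∧ p ≤ x ∧ p ∈ S}

theorem cnt_fin (S : Set ℕ) (x : ℕ) : (cnt S x).Finite :=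
  (Set.finite_Iic x).subset fun _ hp => hp.2.1

theorem cnt_union (S T : Set ℕ) (x : ℕ) :
    ((cnt (S ∪ T) x).ncard : ℝ) ≤ (cnt S x).ncard + (cnt T x).ncard := by
  have h : cnt (S ∪ T) x = cnt S x ∪ cnt T x := by
    ext p; simp only [cnt, Set.mem_ofPred_eq, Set.mem_union]; tauto
  rw [h]
  exact_mod_cast Set.ncard_union_le _ _

/-- A finite union of sets of density zero. -/
theorem finite_union (S : ℕ → Set ℕ)
    (h : ∀ n, ∀ ε : ℝ, 0 < ε → ∃ x₀ : ℕ, ∀ x : ℕ, x₀ ≤ x →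
      ((cnt (S n) x).ncard : ℝ) ≤ ε * (x / Real.log x)) (m : ℕ) :
    ∀ ε : ℝ, 0 < ε → ∃ x₀ : ℕ, ∀ x : ℕ, x₀ ≤ x →
      ((cnt {p | ∃ n ≤ m, p ∈ S n} x).ncard : ℝ) ≤ ε * (x / Real.log x) := by
  induction m with
  | zero =>
    intro ε hε
    obtain ⟨x₀, hx₀⟩ := h 0 ε hε
    refine ⟨x₀, fun x hx => ?_⟩
    have e : {p | ∃ n ≤ 0, p ∈ S n} = S 0 := by
      ext p; simp
    rw [e]; exact hx₀ x hx
  | succ m ih =>
    intro ε hε
    obtain ⟨x₀, hx₀⟩ := h (m + 1) (ε / 2) (by positivity)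
    obtain ⟨x₁, hx₁⟩ := ih (ε / 2) (by positivity)
    refine ⟨max x₀ x₁, fun x hx => ?_⟩
    have e : {p | ∃ n ≤ m + 1, p ∈ S n} = {p | ∃ n ≤ m, p ∈ S n} ∪ S (m + 1) := by
      ext p
      simp only [Set.mem_ofPred_eq, Set.mem_union]
      constructor
      · rintro ⟨n, hn, hp⟩
        rcases Nat.lt_or_ge m n with h' | h'
        · have : n = m + 1 := by omega
          subst this; exact Or.inr hp
        · exact Or.inl ⟨n, h', hp⟩
      · rintro (⟨n, hn, hp⟩ | hp)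
        · exact ⟨n, by omega, hp⟩
        · exact ⟨m + 1, le_rfl, hp⟩
    rw [e]
    have h1 := hx₀ x (le_trans (le_max_left _ _) hx)
    have h2 := hx₁ x (le_trans (le_max_right _ _) hx)
    have h3 := cnt_union {p | ∃ n ≤ m, p ∈ S n} (S (m + 1)) x
    linarith

/-- **One exceptional set.** -/
theorem common (S : ℕ → Set ℕ)
    (h : ∀ n, ∀ ε : ℝ, 0 < ε → ∃ x₀ : ℕ, ∀ x : ℕ, x₀ ≤ x →
      ((cnt (S n) x).ncard : ℝ) ≤ ε * (x / Real.log x)) :
    ∃ B : Set ℕ, (∀ ε : ℝ, 0 < ε → ∃ x₀ : ℕ, ∀ x : ℕ, x₀ ≤ x →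
      ((cnt B x).ncard : ℝ) ≤ ε * (x / Real.log x)) ∧
      ∀ n, ∃ N : ℕ, ∀ p ∈ S n, N ≤ p → p ∈ B := by
  have h1 : ∀ m : ℕ, ∃ x₀ : ℕ, ∀ x : ℕ, x₀ ≤ x →
      ((cnt {p | ∃ n ≤ m, p ∈ S n} x).ncard : ℝ) ≤ 1 / ((m : ℝ) + 1) * (x / Real.log x) :=
    fun m => finite_union S h m _ (by positivity)
  choose y hy using h1
  -- a monotone choice of the thresholds
  let X : ℕ → ℕ := fun m => (∑ i ∈ Finset.range (m + 1), y i) + m
  have hXy : ∀ m, y m ≤ X m := fun m =>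
    le_trans (Finset.single_le_sum (f := y) (fun i _ => Nat.zero_le _)
      (Finset.mem_range.2 (Nat.lt_succ_self m))) (Nat.le_add_right _ _)
  have hXm : ∀ m, m ≤ X m := fun m => Nat.le_add_left _ _
  have hmono : Monotone X := by
    apply monotone_nat_of_le_succ
    intro m
    simp only [X]
    rw [Finset.sum_range_succ _ (m + 1)]
    omega
  refine ⟨{p | ∃ n, p ∈ S n ∧ X n ≤ p}, ?_, fun n => ⟨X n, fun p hp hN => ⟨n, hp, hN⟩⟩⟩
  intro ε hε
  obtain ⟨m0, hm0⟩ := exists_nat_one_div_lt hε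
  refine ⟨X m0, fun x hx => ?_⟩
  -- the largest `m` with `X m ≤ x`
  let m := Nat.findGreatest (fun m => X m ≤ x) x
  have hm1 : X m ≤ x := Nat.findGreatest_spec (P := fun m => X m ≤ x)
    (le_trans (hXm m0) hx) hx
  have hm2 : m0 ≤ m := Nat.le_findGreatest (le_trans (hXm m0) hx) hx
  have hsub : cnt {p | ∃ n, p ∈ S n ∧ X n ≤ p} x ⊆ cnt {p | ∃ n ≤ m, p ∈ S n} x := by
    rintro p ⟨hp, hpx, n, hn, hX⟩
    refine ⟨hp, hpx, n, ?_, hn⟩
    exact Nat.le_findGreatest (le_trans (hXm n) (le_trans hX hpx)) (le_trans hX hpx)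
  have h2 : ((cnt {p | ∃ n, p ∈ S n ∧ X n ≤ p} x).ncard : ℝ) ≤
      (cnt {p | ∃ n ≤ m, p ∈ S n} x).ncard := by
    exact_mod_cast Set.ncard_le_ncard hsub (cnt_fin _ _)
  have h3 := hy m x (le_trans (hXy m) hm1)
  have h4 : (1 : ℝ) / ((m : ℝ) + 1) ≤ ε := by
    refine le_trans ?_ hm0.le
    apply one_div_le_one_div_of_le (by positivity)
    have : (m0 : ℝ) ≤ m := by exact_mod_cast hm2
    linarith
  have h5 : (0 : ℝ) ≤ x / Real.log x := by
    apply div_nonneg (Nat.cast_nonneg x)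
    rcases Nat.eq_zero_or_pos x with h0 | h0
    · subst h0; simp
    · exact Real.log_nonneg (by exact_mod_cast h0)
  calc ((cnt {p | ∃ n, p ∈ S n ∧ X n ≤ p} x).ncard : ℝ) ≤ _ := h2
    _ ≤ _ := h3
    _ ≤ ε * (x / Real.log x) := mul_le_mul_of_nonneg_right h4 h5

end Pool.Agent.H21.DZ
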