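import Pool.Agent.H21.LowFinal

/-!
# An explicit bound for the hypothesis `(dim S_(d-1))^2 ≤ dim S_(2d-1)`
-/

namespace Pool.Agent.H21.DZ

open Pool.Agent.H21

theorem dimS_mul (n i : ℕ) (hn : 1 ≤ n) : Nat.factorial i * dimS n i = n.ascFactorial i := by
  obtain ⟨m, rfl⟩ : ∃ m, n = m + 1 := ⟨n - 1, by omega⟩
  rw [Nat.ascFactorial_eq_factorial_mul_choose, dimS]
  congr 1
  rw [Nat.add_sub_cancel, show m + i = i + m by omega, Nat.choose_symm_add]

theorem asc_mono {a b : ℕ} (h : a ≤ b) (k : ℕ) : a.ascFactorial k ≤ b.ascFactorial k := by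
  induction k with
  | zero => simp
  | succ k ih => rw [Nat.ascFactorial_succ, Nat.ascFactorial_succ]; gcongr

/-- `(dim S_(d-1))^2 ≤ dim S_(2d-1)` if `d * C(2d-1, d) ≤ n + 2d - 2`. -/
theorem cond_explicit (n d : ℕ) (hn : 1 ≤ n) (hd : 1 ≤ d)
    (h : d * (2 * d - 1).choose d ≤ n + (2 * d - 2)) :
    (dimS n (d - 1)) ^ 2 ≤ dimS n (d + (d - 1)) := by
  obtain ⟨e, rfl⟩ : ∃ e, d = e + 1 := ⟨d - 1, by omega⟩
  rw [show 2 * (e + 1) - 1 = 2 * e + 1 by omega, show 2 * (e + 1) - 2 = 2 * e by omega] at h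
  rw [Nat.add_sub_cancel]
  have h1 := dimS_mul n e hn
  have h2 := dimS_mul n (e + 1 + e) hn
  -- split the long product
  have h3 : n.ascFactorial (e + 1 + e) = n.ascFactorial e * (n + e).ascFactorial e * (n + 2 * e) := by
    have : e + 1 + e = e + e + 1 := by omega
    rw [this, Nat.ascFactorial_succ, ← Nat.ascFactorial_mul_ascFactorial]
    rw [show n + (e + e) = n + 2 * e by omega]
    ring
  have h4 : n.ascFactorial e ≤ (n + e).ascFactorial e := asc_mono (Nat.le_add_right n e) e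
  have h5 : (2 * e + 1).factorial = (e + 1) * (2 * e + 1).choose (e + 1) * e.factorial ^ 2 := by
    have h6 := Nat.choose_mul_factorial_mul_factorial (n := 2 * e + 1) (k := e + 1) (by omega)
    rw [show 2 * e + 1 - (e + 1) = e by omega, Nat.factorial_succ] at h6
    rw [← h6]; ring
  -- compare
  have hpos : 0 < e.factorial ^ 2 * (e + 1 + e).factorial := by positivity
  refine Nat.le_of_mul_le_mul_left ?_ hpos
  have e1 : e.factorial ^ 2 * (e + 1 + e).factorial * dimS n e ^ 2 =
      (e + 1 + e).factorial * (n.ascFactorial e * n.ascFactorial e) := by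
    rw [← h1]; ring
  have e2 : e.factorial ^ 2 * (e + 1 + e).factorial * dimS n (e + 1 + e) =
      e.factorial ^ 2 * (n.ascFactorial e * (n + e).ascFactorial e * (n + 2 * e)) := by
    rw [← h3, ← h2]; ring
  rw [e1, e2, show e + 1 + e = 2 * e + 1 by omega, h5]
  calc (e + 1) * (2 * e + 1).choose (e + 1) * e.factorial ^ 2 *
        (n.ascFactorial e * n.ascFactorial e)
      ≤ (n + 2 * e) * e.factorial ^ 2 * (n.ascFactorial e * (n + e).ascFactorial e) := by
        gcongr
    _ = e.factorial ^ 2 * (n.ascFactorial e * (n + e).ascFactorial e * (n + 2 * e)) := by ring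

end Pool.Agent.H21.DZ
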