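import Pool.Agent.H71.FD.Dens

/-!
# One exceptional set for countably many null sets of primes, in terms of `Null`
-/

namespace Pool.Agent.H21.DZ

open Finset Filter
open Pool.Agent.H71.FD

theorem th_le {G G' : ℕ → Prop} (x : ℕ) (h : ∀ p ≤ x, p.Prime → G p → G' p) : th G x ≤ th G' x := by
  classical
  unfold th
  refine Finset.sum_le_sum_of_subset_of_nonneg (fun p hp => ?_) fun p _ _ =>
    Real.log_natCast_nonneg p
  rw [mem_filter, mem_Icc] at hp
  rw [mem_filter, mem_Icc]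
  exact ⟨hp.1, hp.2.1, h p hp.1.2 hp.2.1 hp.2.2⟩

theorem null_upto (B : ℕ → ℕ → Prop) (h : ∀ n, Null (B n)) (m : ℕ) :
    Null (fun p => ∃ n ≤ m, B n p) := by
  induction m with
  | zero => exact (h 0).mono fun p _ ⟨n, hn, hp⟩ => by
      have : n = 0 := by omega
      subst this; exact hp
  | succ m ih =>
    refine (ih.or (h (m + 1))).mono fun p _ ⟨n, hn, hp⟩ => ?_
    rcases Nat.lt_or_ge m n with h' | h'
    · have : n = m + 1 := by omega
      subst this; exact Or.inr hp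
    · exact Or.inl ⟨n, h', hp⟩

/-- **One null set** which contains countably many null sets up to finitely many elements. -/
theorem common_null (B : ℕ → ℕ → Prop) (h : ∀ n, Null (B n)) :
    ∃ B' : ℕ → Prop, Null B' ∧ ∀ n, ∃ N : ℕ, ∀ p, B n p → N ≤ p → B' p := by
  have h1 : ∀ m : ℕ, ∃ x₀ : ℕ, ∀ x : ℕ, x₀ ≤ x →
      th (fun p => ∃ n ≤ m, B n p) x ≤ 1 / ((m : ℝ) + 1) * x := fun m =>
    eventually_atTop.1 (null_upto B h m (1 / ((m : ℝ) + 1)) (by positivity))
  choose y hy using h1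
  let X : ℕ → ℕ := fun m => (∑ i ∈ Finset.range (m + 1), y i) + m
  have hXy : ∀ m, y m ≤ X m := fun m =>
    le_trans (Finset.single_le_sum (f := y) (fun i _ => Nat.zero_le _)
      (Finset.mem_range.2 (Nat.lt_succ_self m))) (Nat.le_add_right _ _)
  have hXm : ∀ m, m ≤ X m := fun m => Nat.le_add_left _ _
  refine ⟨fun p => ∃ n, B n p ∧ X n ≤ p, ?_, fun n => ⟨X n, fun p hp hN => ⟨n, hp, hN⟩⟩⟩
  intro ε hε
  obtain ⟨m0, hm0⟩ := exists_nat_one_div_lt hε
  refine eventually_atTop.2 ⟨X m0, fun x hx => ?_⟩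
  let m := Nat.findGreatest (fun m => X m ≤ x) x
  have hm1 : X m ≤ x := Nat.findGreatest_spec (P := fun m => X m ≤ x)
    (le_trans (hXm m0) hx) hx
  have hm2 : m0 ≤ m := Nat.le_findGreatest (le_trans (hXm m0) hx) hx
  have h2 : th (fun p => ∃ n, B n p ∧ X n ≤ p) x ≤ th (fun p => ∃ n ≤ m, B n p) x := by
    refine th_le x fun p hpx _ ⟨n, hn, hX⟩ => ⟨n, ?_, hn⟩
    exact Nat.le_findGreatest (le_trans (hXm n) (le_trans hX hpx)) (le_trans hX hpx)
  have h3 := hy m x (le_trans (hXy m) hm1)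
  have h4 : (1 : ℝ) / ((m : ℝ) + 1) ≤ ε := by
    refine le_trans ?_ hm0.le
    apply one_div_le_one_div_of_le (by positivity)
    have : (m0 : ℝ) ≤ m := by exact_mod_cast hm2
    linarith
  calc th (fun p => ∃ n, B n p ∧ X n ≤ p) x ≤ _ := h2
    _ ≤ _ := h3
    _ ≤ ε * x := mul_le_mul_of_nonneg_right h4 (Nat.cast_nonneg x)

end Pool.Agent.H21.DZ
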