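import Mathlib

/-!
# Six preperiodic points of `x ↦ b x + (1 - b) / x`
-/

set_option autoImplicit false

namespace Pool.Agent.H21.DZ

/-- the map `x ↦ b x + c / x` on the projective line (`none` is infinity) -/
def mp (b c : ℚ) : Option ℚ → Option ℚ := fun q : Option ℚ =>
  Option.bind q (fun x : ℚ => if x = 0 then none else some (b * x + c / x))

theorem finite_orbit {α : Type*} (F : α → α) (P Q : α) (h1 : F P = Q) (h2 : F Q = Q) :
    (Set.range (fun n : ℕ => F^[n] P)).Finite := by
  refine Set.Finite.subset (Set.toFinite {P, Q}) ?_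
  rintro x ⟨n, rfl⟩
  have hQ : ∀ m : ℕ, F^[m] Q = Q := fun m => Function.iterate_fixed h2 m
  cases n with
  | zero => simp
  | succ n => simp [Function.iterate_succ_apply, h1, hQ]

theorem six (b : ℚ) (hb0 : b ≠ 0) (hb1 : b ≠ 1) (hb2 : b ≠ 1 / 2) :
    6 ≤ Set.encard {P : Option ℚ | (Set.range (fun n : ℕ =>
      (fun q : Option ℚ => Option.bind q
        (fun x : ℚ => if x = 0 then none else some (b * x + (1 - b) / x)))^[n] P)).Finite} := by
  set F : Option ℚ → Option ℚ := fun q : Option ℚ => Option.bind q
        (fun x : ℚ => if x = 0 then none else some (b * x + (1 - b) / x)) with hF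
  have hc : (1 : ℚ) - b ≠ 0 := sub_ne_zero.2 (Ne.symm hb1)
  set y : ℚ := (1 - b) / b with hy
  have hy0 : y ≠ 0 := div_ne_zero hc hb0
  have f0 : F none = none := rfl
  have f1 : F (some 0) = none := by simp [hF]
  have f2 : F (some 1) = some 1 := by simp [hF]
  have f3 : F (some (-1)) = some (-1) := by
    simp only [hF, Option.bind_some, if_neg (show (-1 : ℚ) ≠ 0 by norm_num)]
    congr 1; ring
  have f4 : F (some y) = some 1 := by
    simp only [hF, Option.bind_some, if_neg hy0]
    congr 1; rw [hy]; field_simp; ring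
  have f5 : F (some (-y)) = some (-1) := by
    simp only [hF, Option.bind_some, if_neg (neg_ne_zero.2 hy0)]
    congr 1; rw [hy]; field_simp; ring
  have y1 : y ≠ 1 := by
    intro h; apply hb2; rw [hy, div_eq_one_iff_eq hb0] at h; linarith
  have y2 : y ≠ -1 := by
    intro h; rw [hy, div_eq_iff hb0] at h; linarith
  let S : Finset (Option ℚ) := {none, some 0, some 1, some (-1), some y, some (-y)}
  have hS : (S : Set (Option ℚ)) ⊆ {P : Option ℚ | (Set.range (fun n : ℕ => F^[n] P)).Finite} := by
    intro P hP
    simp only [S, Finset.coe_insert, Finset.coe_singleton, Set.mem_insert_iff,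
      Set.mem_singleton_iff] at hP
    rcases hP with rfl | rfl | rfl | rfl | rfl | rfl
    · exact finite_orbit F _ _ f0 f0
    · exact finite_orbit F _ _ f1 f0
    · exact finite_orbit F _ _ f2 f2
    · exact finite_orbit F _ _ f3 f3
    · exact finite_orbit F _ _ f4 f2
    · exact finite_orbit F _ _ f5 f3
  have hcard : S.card = 6 := by
    have a1 : (-y) ≠ 0 := neg_ne_zero.2 hy0
    have a2 : y ≠ -y := by
      intro h; apply hy0; linarith
    have a3 : (-y) ≠ 1 := by
      intro h; apply y2; linarith
    have a4 : (-y) ≠ -1 := by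
      intro h; apply y1; linarith
    have a5 : (1 : ℚ) ≠ -1 := by norm_num
    have a6 : (0 : ℚ) ≠ -1 := by norm_num
    simp only [S]
    rw [Finset.card_insert_of_notMem, Finset.card_insert_of_notMem, Finset.card_insert_of_notMem,
      Finset.card_insert_of_notMem, Finset.card_insert_of_notMem, Finset.card_singleton]
    all_goals
      simp only [Finset.mem_insert, Finset.mem_singleton, Option.some.injEq, reduceCtorEq,
        not_or, or_false, not_false_eq_true]
    · exact a2
    · exact ⟨y2.symm, a4.symm⟩
    · exact ⟨a5, y1.symm, a3.symm⟩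
    · exact ⟨by norm_num, a6, hy0.symm, a1.symm⟩
  calc (6 : ℕ∞) = ((S : Set (Option ℚ)).encard) := by
        rw [Set.encard_coe_eq_coe_finsetCard, hcard]; rfl
    _ ≤ _ := Set.encard_le_encard hS

end Pool.Agent.H21.DZ
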